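import Pool.Agent.H5.RPG.Stmts

/-!
# Board rpg, row CNU
-/

set_option autoImplicit false

namespace Pool.RPG

theorem cnu_thm (hRCL : RCLStmt) (hRLC : RLCStmt) (hRRE : RREStmt) (hCNP : CNPStmt)
    (hFUB : FUBStmt) : CNUStmt := by
  intro n d r o e W
  classical
  set P : (Fin n → Fin d → Fin n) → Prop := fun s => Lf o e s = (W : Set (Fin n)) ∧
      (∀ v ∈ W, (Finset.univ.filter fun w => w ∉ RS (o v) o e s ∅).card ≤ r) ∧
      Fail o e s with hPdef
  have hmain := hFUB (Fin n) (Fin d → Fin n) W P (d * W.card * r ^ (d - 1))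
    (d ^ 2 * W.card ^ 2 * r ^ (d - 2)) (by
    intro s₀ hs₀
    obtain ⟨hL₀, hr₀, -⟩ := hs₀
    have hW₀ : ∀ i, ∀ v ∈ (W : Set (Fin n)), v ∉ RS i o e s₀ ∅ := by
      intro i v hv
      rw [← hL₀] at hv
      exact hv i
    refine ⟨fun v => Finset.univ.filter fun t : Fin d → Fin n =>
        (∀ j, t j ∈ Finset.univ.filter fun w => w ∉ RS (o v) o e s₀ ∅) ∧ ∃ j, t j ∈ W,
      fun v => Finset.univ.filter fun t : Fin d → Fin n =>
        (∀ j, t j ∈ Finset.univ.filter fun w => w ∉ RS (o v) o e s₀ ∅) ∧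
          ∃ j k, j ≠ k ∧ t j ∈ W ∧ t k ∈ W, ?_, ?_⟩
    · intro v hv
      have h1 := hr₀ v hv
      obtain ⟨c1, c2⟩ := hCNP (Fin n) d (Finset.univ.filter fun w => w ∉ RS (o v) o e s₀ ∅) W
      constructor
      · refine le_trans ?_ (Nat.mul_le_mul_left _ (Nat.pow_le_pow_left h1 (d - 1)))
        convert c1
      · refine le_trans ?_ (Nat.mul_le_mul_left _ (Nat.pow_le_pow_left h1 (d - 2)))
        convert c2
    · intro s hs hout
      obtain ⟨hL, -, hF⟩ := hs
      have hWs : ∀ i, ∀ v ∈ (W : Set (Fin n)), v ∉ RS i o e s ∅ := by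
        intro i v hv
        rw [← hL] at hv
        exact hv i
      have hRS : ∀ i, RS i o e s ∅ = RS i o e s₀ ∅ := by
        intro i
        rw [← hRRE (Fin n) (Fin d) i o e s W (hWs i), ← hRRE (Fin n) (Fin d) i o e s₀ W (hW₀ i)]
        exact hRLC (Fin n) (Fin d) i o e s s₀ W (fun v hv => hout v (by simpa using hv))
      have hown : ∀ v ∈ W, ∀ j, s v j ∉ RS (o v) o e s ∅ := by
        intro v hv j hj
        obtain ⟨-, hcl, -, -⟩ := hRCL (Fin n) (Fin d) (o v) o e s ∅
        apply hWs (o v) v (by simpa using hv)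
        apply hcl v (by simp)
        unfold Pre
        rw [if_pos rfl]
        exact ⟨j, hj⟩
      have hoth : ∀ v ∈ W, ∃ j, s v j ∉ RS (!o v) o e s ∅ := by
        intro v hv
        by_contra hcon
        push Not at hcon
        obtain ⟨-, hcl, -, -⟩ := hRCL (Fin n) (Fin d) (!o v) o e s ∅
        apply hWs (!o v) v (by simpa using hv)
        apply hcl v (by simp)
        unfold Pre
        rw [if_neg (by simp)]
        exact hcon
      have hmemW : ∀ w, (∀ i, w ∉ RS i o e s ∅) → w ∈ W := by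
        intro w hw
        have : w ∈ Lf o e s := hw
        rw [hL] at this
        exact this
      have hX : ∀ v ∈ W, ∀ j, s v j ∈ Finset.univ.filter fun w => w ∉ RS (o v) o e s₀ ∅ := by
        intro v hv j
        rw [Finset.mem_filter]
        refine ⟨Finset.mem_univ _, ?_⟩
        rw [← hRS]
        exact hown v hv j
      constructor
      · intro v hv
        rw [Finset.mem_filter]
        refine ⟨Finset.mem_univ _, hX v hv, ?_⟩
        obtain ⟨j, hj⟩ := hoth v hv
        refine ⟨j, hmemW _ ?_⟩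
        intro i
        rcases Bool.eq_or_eq_not i (o v) with h | h
        · rw [h]
          exact hown v hv j
        · rw [h]
          exact hj
      · obtain ⟨v, hv, j, k, hj, hk, hjk⟩ := hF
        have hv' : v ∈ W := hmemW v hv
        refine ⟨v, hv', ?_⟩
        rw [Finset.mem_filter]
        exact ⟨Finset.mem_univ _, hX v hv', j, k, fun h => hjk (by rw [h]), hmemW _ hj,
          hmemW _ hk⟩)
  rw [Fintype.card_fun, Fintype.card_fin, Fintype.card_fin] at hmain
  convert hmain

end Pool.RPG
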