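import Pool.Agent.H5.RPG.Stmts

/-!
# Board rpg, row FUB
-/

set_option autoImplicit false

namespace Pool.RPG

open Classical in
theorem fub_prod {V : Type} [Fintype V] [DecidableEq V] (W : Finset V) (v₀ : V) (hv : v₀ ∈ W)
    (a b : ℕ) (c : V → ℕ) (h1 : ∀ v ∉ W, c v = 1) (h0 : c v₀ ≤ b)
    (ha : ∀ v ∈ W, v ≠ v₀ → c v ≤ a) : ∏ v, c v ≤ b * a ^ (W.card - 1) := by
  have e1 : ∏ v, c v = ∏ v ∈ W, c v :=
    (Finset.prod_subset (Finset.subset_univ W) (fun v _ hv' => h1 v hv')).symm
  rw [e1, ← Finset.mul_prod_erase W c hv]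
  refine Nat.mul_le_mul h0 ?_
  have h2 := Finset.prod_le_pow_card (W.erase v₀) c a
    (fun v hv' => ha v (Finset.mem_of_mem_erase hv') (Finset.ne_of_mem_erase hv'))
  rwa [Finset.card_erase_of_mem hv] at h2

theorem fub_thm : FUBStmt := by
  intro V X _ _ _ _ W P a b hP
  classical
  set F : Finset (V → X) := Finset.univ.filter fun f : V → X => P f with hF
  set ρ : (V → X) → ((Wᶜ : Finset V) → X) := fun f v => f v.1 with hρ
  have key : ∀ g ∈ F.image ρ, (F.filter fun f => ρ f = g).card ≤ W.card * b * a ^ (W.card - 1) := by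
    intro g hg
    obtain ⟨f₀, hf₀, rfl⟩ := Finset.mem_image.1 hg
    have hPf₀ : P f₀ := by
      rw [hF, Finset.mem_filter] at hf₀
      exact hf₀.2
    obtain ⟨T, T', hT, hcl⟩ := hP f₀ hPf₀
    set S : V → Finset (V → X) := fun v₀ => Fintype.piFinset fun v =>
      if v ∈ W then (if v = v₀ then T' v else T v) else {f₀ v} with hS
    have hsub : (F.filter fun f => ρ f = ρ f₀) ⊆ W.biUnion S := by
      intro f hf
      rw [Finset.mem_filter, hF, Finset.mem_filter] at hf
      obtain ⟨⟨-, hPf⟩, hff⟩ := hf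
      have hout : ∀ v ∉ W, f v = f₀ v := by
        intro v hv
        exact congrFun hff ⟨v, Finset.mem_compl.2 hv⟩
      obtain ⟨h1, v₀, hv₀, h2⟩ := hcl f hPf hout
      rw [Finset.mem_biUnion]
      refine ⟨v₀, hv₀, ?_⟩
      rw [hS, Fintype.mem_piFinset]
      intro v
      by_cases hv : v ∈ W
      · rw [if_pos hv]
        by_cases hvv : v = v₀
        · rw [if_pos hvv, hvv]
          exact h2
        · rw [if_neg hvv]
          exact h1 v hv
      · rw [if_neg hv, Finset.mem_singleton]
        exact hout v hv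
    refine (Finset.card_le_card hsub).trans (Finset.card_biUnion_le.trans ?_)
    have h3 : ∀ v₀ ∈ W, (S v₀).card ≤ b * a ^ (W.card - 1) := by
      intro v₀ hv₀
      rw [hS, Fintype.card_piFinset]
      refine fub_prod W v₀ hv₀ a b _ ?_ ?_ ?_
      · intro v hv
        rw [if_neg hv, Finset.card_singleton]
      · rw [if_pos hv₀, if_pos rfl]
        exact (hT v₀ hv₀).2
      · intro v hv hvv
        rw [if_pos hv, if_neg hvv]
        exact (hT v hv).1
    refine (Finset.sum_le_card_nsmul W _ _ h3).trans (le_of_eq ?_)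
    rw [smul_eq_mul, mul_assoc]
  have h4 := Finset.card_le_mul_card_image F (W.card * b * a ^ (W.card - 1)) key
  have h5 : (F.image ρ).card ≤ Fintype.card X ^ (Fintype.card V - W.card) := by
    refine (Finset.card_le_univ _).trans (le_of_eq ?_)
    rw [Fintype.card_fun, Fintype.card_coe, Finset.card_compl]
  calc F.card ≤ (W.card * b * a ^ (W.card - 1)) * (F.image ρ).card := h4
    _ ≤ (W.card * b * a ^ (W.card - 1)) * Fintype.card X ^ (Fintype.card V - W.card) :=
        Nat.mul_le_mul_left _ h5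
    _ = _ := mul_comm _ _

end Pool.RPG
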